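import Pool.Agent.N418.CZ.Stm

/-!
# The codimensions do not depend on the field (part BC)
-/

set_option autoImplicit false

namespace Pool.Agent.N84.CZ

open Module

/-- the rational rank of an integer matrix. -/
noncomputable def rk {I J : Type} (M : I → J → ℤ) : ℕ :=
  finrank ℚ (Submodule.span ℚ (Set.range fun i => fun j => (M i j : ℚ)))

/-- the extension of scalars of vectors. -/
noncomputable def phi (F J : Type) [Field F] [CharZero F] : (J → ℚ) →ₗ[ℚ] (J → F) where
  toFun := fun v => algebraMap ℚ F ∘ v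
  map_add' := fun a b => by funext j; simp
  map_smul' := fun c a => by funext j; simp [Algebra.smul_def]

lemma phi_int (F : Type) [Field F] [CharZero F] {J : Type} (M : J → ℤ) :
    phi F J (fun j => (M j : ℚ)) = fun j => (M j : F) := by
  funext j
  change algebraMap ℚ F (M j : ℚ) = (M j : F)
  rw [map_intCast]

lemma finrank_span_int (F : Type) [Field F] [CharZero F] {I J : Type} [Finite I] [Finite J]
    (M : I → J → ℤ) :
    finrank F (Submodule.span F (Set.range fun i => fun j => (M i j : F))) = rk M := by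
  classical
  obtain ⟨b, hbt, hspan, hli⟩ := exists_linearIndependent ℚ
    (Set.range fun i => fun j => (M i j : ℚ))
  have hfin : b.Finite := (Set.finite_range _).subset hbt
  have hF : Fintype b := hfin.fintype
  have h1 : rk M = Fintype.card b := by
    unfold rk
    rw [← hspan, finrank_span_set_eq_card hli, Set.toFinset_card]
  have h2 : LinearIndependent F (fun i : b => phi F J (i : J → ℚ)) :=
    linearIndependent_algebraMap_comp_iff.mpr hli
  have h3 : (Submodule.span F (Set.range fun i => fun j => (M i j : F))) =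
      Submodule.span F (Set.range fun i : b => phi F J (i : J → ℚ)) := by
    apply le_antisymm
    · rw [Submodule.span_le]
      rintro _ ⟨i, rfl⟩
      have h5 : (fun j => (M i j : ℚ)) ∈ Submodule.span ℚ b := by
        rw [hspan]
        exact Submodule.subset_span ⟨i, rfl⟩
      have h6 : Submodule.span ℚ b ≤ ((Submodule.span F
          (Set.range fun i : b => phi F J (i : J → ℚ))).restrictScalars ℚ).comap (phi F J) := by
        rw [Submodule.span_le]
        intro v hv
        exact Submodule.subset_span ⟨⟨v, hv⟩, rfl⟩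
      have h7 := h6 h5
      rw [Submodule.mem_comap, phi_int] at h7
      exact h7
    · rw [Submodule.span_le]
      rintro _ ⟨⟨v, hv⟩, rfl⟩
      obtain ⟨i, rfl⟩ := hbt hv
      exact Submodule.subset_span ⟨i, (phi_int F _).symm⟩
  rw [h3, finrank_span_eq_card h2, h1]

variable {F : Type} [Field F] {k n : ℕ}

/-- the tuple of matrix units. -/
def EU (R : Type) [Zero R] [One R] (ab : Fin n → Fin k × Fin k) (s : Fin n) :
    Matrix (Fin k) (Fin k) R := Matrix.single (ab s).1 (ab s).2 1

/-- the entries of the values at the tuples of matrix units. -/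
noncomputable def ent (F : Type) [Field F] (k n : ℕ) :
    ((Fin n → Matrix (Fin k) (Fin k) F) → Matrix (Fin k) (Fin k) F) →ₗ[F]
      (((Fin n → Fin k × Fin k) × (Fin k × Fin k)) → F) where
  toFun f := fun q => f (EU F q.1) q.2.1 q.2.2
  map_add' a b := by funext q; rfl
  map_smul' c a := by funext q; rfl

lemma finrank_family [CharZero F] {I : Type} [Finite I]
    (g : I → MultilinearMap F (fun _ : Fin n => Matrix (Fin k) (Fin k) F)
      (Matrix (Fin k) (Fin k) F))
    (M : I → ((Fin n → Fin k × Fin k) × (Fin k × Fin k)) → ℤ)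
    (h : ∀ s q, g s (EU F q.1) q.2.1 q.2.2 = (M s q : F)) :
    finrank F (Submodule.span F (Set.range fun s => (g s : (Fin n → Matrix (Fin k) (Fin k) F) →
      Matrix (Fin k) (Fin k) F))) = rk M := by
  classical
  rw [← finrank_span_int F M]
  set W := Submodule.span F (Set.range fun s => (g s : (Fin n → Matrix (Fin k) (Fin k) F) →
      Matrix (Fin k) (Fin k) F)) with hW
  have hmul : ∀ f ∈ W, ∃ m : MultilinearMap F (fun _ : Fin n => Matrix (Fin k) (Fin k) F)
      (Matrix (Fin k) (Fin k) F), (m : _ → _) = f := by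
    intro f hf
    induction hf using Submodule.span_induction with
    | mem x hx =>
      obtain ⟨s, rfl⟩ := hx
      exact ⟨g s, rfl⟩
    | zero => exact ⟨0, rfl⟩
    | add x y _ _ hx hy =>
      obtain ⟨a, rfl⟩ := hx
      obtain ⟨b, rfl⟩ := hy
      exact ⟨a + b, rfl⟩
    | smul c x _ hx =>
      obtain ⟨a, rfl⟩ := hx
      exact ⟨c • a, rfl⟩
  have hinj : ∀ f ∈ W, ent F k n f = 0 → f = 0 := by
    intro f hf h0
    obtain ⟨m, rfl⟩ := hmul f hf
    have : m = 0 := by
      refine Basis.ext_multilinear (fun _ => Matrix.stdBasis F (Fin k) (Fin k)) ?_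
      intro v
      ext i j
      have h1 := congrFun h0 (v, (i, j))
      have h2 : (fun s => Matrix.stdBasis F (Fin k) (Fin k) (v s)) = EU F v := by
        funext s
        exact Matrix.stdBasis_eq_single F (v s).1 (v s).2
      rw [h2]
      exact h1
    rw [this]
    rfl
  have hmap : W.map (ent F k n) = Submodule.span F (Set.range fun i => fun j => (M i j : F)) := by
    rw [hW, Submodule.map_span, ← Set.range_comp]
    congr 2
    funext s
    funext q
    exact h s q
  rw [← hmap]
  let e : W →ₗ[F] _ := (ent F k n).domRestrict W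
  have hker : LinearMap.ker e = ⊥ := by
    rw [LinearMap.ker_eq_bot']
    rintro ⟨f, hf⟩ h0
    exact Subtype.ext (hinj f hf h0)
  have hr : LinearMap.range e = W.map (ent F k n) := LinearMap.range_domRestrict _ _
  rw [← hr]
  exact (LinearMap.finrank_range_of_inj (LinearMap.ker_eq_bot.mp hker)).symm

/-- the multilinear map of the monomial. -/
noncomputable def mon (F : Type) [Field F] (k n : ℕ) (s : Equiv.Perm (Fin n)) :
    MultilinearMap F (fun _ : Fin n => Matrix (Fin k) (Fin k) F) (Matrix (Fin k) (Fin k) F) :=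
  (MultilinearMap.mkPiAlgebraFin F n (Matrix (Fin k) (Fin k) F)).domDomCongr s

lemma mon_apply (s : Equiv.Perm (Fin n)) (x : Fin n → Matrix (Fin k) (Fin k) F) :
    mon F k n s x = (List.ofFn fun i => x (s i)).prod := rfl

lemma ofFn_prod_cast (s : Equiv.Perm (Fin n)) (v : Fin n → Fin k × Fin k) :
    (List.ofFn fun i => EU F v (s i)).prod =
      ((List.ofFn fun i => EU ℤ v (s i)).prod).map (Int.castRingHom F) := by
  have h1 : ∀ A : Matrix (Fin k) (Fin k) ℤ, A.map (Int.castRingHom F) =
      (Int.castRingHom F).mapMatrix A := fun A => rfl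
  rw [h1, map_list_prod, List.map_ofFn]
  congr 2
  funext i
  change _ = (EU ℤ v (s i)).map (Int.castRingHom F)
  unfold EU
  rw [Matrix.map_single]
  simp

/-- the projection along the scalar matrices. -/
noncomputable def nor (F : Type) [Field F] (k : ℕ) (o : Fin k) :
    Matrix (Fin k) (Fin k) F →ₗ[F] Matrix (Fin k) (Fin k) F where
  toFun x := x - (x o o) • (1 : Matrix (Fin k) (Fin k) F)
  map_add' a b := by
    rw [Matrix.add_apply, add_smul]
    abel
  map_smul' c a := by
    rw [Matrix.smul_apply, smul_eq_mul, mul_smul, RingHom.id_apply, smul_sub]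

lemma nor_ker (o : Fin k) :
    LinearMap.ker (nor F k o) =
      Subalgebra.toSubmodule (Subalgebra.center F (Matrix (Fin k) (Fin k) F)) := by
  ext x
  rw [LinearMap.mem_ker, Subalgebra.mem_toSubmodule, Subalgebra.mem_center_iff]
  constructor
  · intro h y
    have h1 : x = (x o o) • (1 : Matrix (Fin k) (Fin k) F) := sub_eq_zero.mp h
    rw [h1, mul_smul_comm, smul_mul_assoc, mul_one, one_mul]
  · intro h
    have h1 : x ∈ Set.range (Matrix.scalar (Fin k) : F →+* Matrix (Fin k) (Fin k) F) := by
      rw [Matrix.mem_range_scalar_iff_commute_single']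
      intro i j
      exact h _
    obtain ⟨c, rfl⟩ := h1
    change Matrix.scalar (Fin k) c - (Matrix.scalar (Fin k) c o o) •
      (1 : Matrix (Fin k) (Fin k) F) = 0
    rw [Matrix.scalar_apply, Matrix.diagonal_apply_eq, ← Matrix.diagonal_one,
      ← Matrix.diagonal_smul]
    rw [sub_eq_zero]
    congr 1
    funext i
    simp

/-- the integer entries. -/
noncomputable def MP (k n : ℕ) (s : Equiv.Perm (Fin n))
    (q : (Fin n → Fin k × Fin k) × (Fin k × Fin k)) : ℤ :=
  (List.ofFn fun i => EU ℤ q.1 (s i)).prod q.2.1 q.2.2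

/-- the integer entries modulo scalars. -/
noncomputable def MZ (k n : ℕ) (o : Fin k) (s : Equiv.Perm (Fin n))
    (q : (Fin n → Fin k × Fin k) × (Fin k × Fin k)) : ℤ :=
  (List.ofFn fun i => EU ℤ q.1 (s i)).prod q.2.1 q.2.2 -
    (List.ofFn fun i => EU ℤ q.1 (s i)).prod o o * (1 : Matrix (Fin k) (Fin k) ℤ) q.2.1 q.2.2

lemma PF_rank (F : Type) [Field F] [CharZero F] (k n : ℕ) :
    finrank F (Pool.Agent.N418.CZ.PF F k n) = rk (MP k n) := by
  refine finrank_family (mon F k n) (MP k n) ?_
  intro s q
  rw [mon_apply, ofFn_prod_cast]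
  rfl

lemma ZF_rank (F : Type) [Field F] [CharZero F] (k n : ℕ) (o : Fin k) :
    finrank F (Pool.Agent.N418.CZ.ZF F k n) = rk (MZ k n o) := by
  set Z := Subalgebra.toSubmodule (Subalgebra.center F (Matrix (Fin k) (Fin k) F)) with hZ
  have h1 := finrank_family (F := F) (fun s => (nor F k o).compMultilinearMap (mon F k n s))
    (MZ k n o) (by
      intro s q
      change (nor F k o (mon F k n s (EU F q.1))) q.2.1 q.2.2 = _
      rw [mon_apply, ofFn_prod_cast]
      unfold MZ
      rw [Int.cast_sub, Int.cast_mul]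
      have hnor : ∀ (A : Matrix (Fin k) (Fin k) F) (i j : Fin k),
          (nor F k o A) i j = A i j - A o o * (1 : Matrix (Fin k) (Fin k) F) i j := by
        intro A i j
        change (A - (A o o) • (1 : Matrix (Fin k) (Fin k) F)) i j = _
        rw [Matrix.sub_apply, Matrix.smul_apply, smul_eq_mul]
      rw [hnor, Matrix.map_apply, Matrix.map_apply]
      have h1 : ((1 : Matrix (Fin k) (Fin k) F) q.2.1 q.2.2) =
          (((1 : Matrix (Fin k) (Fin k) ℤ) q.2.1 q.2.2 : ℤ) : F) := by
        rw [Matrix.one_apply, Matrix.one_apply]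
        split_ifs <;> simp
      rw [h1]
      rfl)
  rw [← h1]
  let N' : (Matrix (Fin k) (Fin k) F ⧸ Z) →ₗ[F] Matrix (Fin k) (Fin k) F :=
    Z.liftQ (nor F k o) (by rw [nor_ker])
  have hN' : Function.Injective N' := by
    rw [← LinearMap.ker_eq_bot]
    exact Submodule.ker_liftQ_eq_bot _ _ _ (by rw [nor_ker])
  let C : ((Fin n → Matrix (Fin k) (Fin k) F) → (Matrix (Fin k) (Fin k) F ⧸ Z)) →ₗ[F]
      ((Fin n → Matrix (Fin k) (Fin k) F) → Matrix (Fin k) (Fin k) F) :=
    N'.compLeft (Fin n → Matrix (Fin k) (Fin k) F)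
  have hC : Function.Injective C := by
    intro f g h
    funext x
    exact hN' (congrFun h x)
  have h2 : (Pool.Agent.N418.CZ.ZF F k n).map C = Submodule.span F (Set.range fun s =>
      (((nor F k o).compMultilinearMap (mon F k n s) : MultilinearMap F
        (fun _ : Fin n => Matrix (Fin k) (Fin k) F) (Matrix (Fin k) (Fin k) F)) :
        (Fin n → Matrix (Fin k) (Fin k) F) → Matrix (Fin k) (Fin k) F)) := by
    unfold Pool.Agent.N418.CZ.ZF
    rw [Submodule.map_span, ← Set.range_comp]
    rfl
  rw [← h2]
  exact (LinearEquiv.finrank_eq (Submodule.equivMapOfInjective C hC _))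

theorem t_BC : Pool.Agent.N418.CZ.S_BC := by
  intro F _ _ k n hk
  have o : Fin k := ⟨0, hk⟩
  rw [PF_rank F, PF_rank ℝ, ZF_rank F k n o, ZF_rank ℝ k n o]
  exact ⟨rfl, rfl⟩

end Pool.Agent.N84.CZ
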